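import Pool.Agent.H46.CH.AT
import Pool.Agent.H8.VR.StepL

/-!
# The regular level, row XT: run trees of generated structures
-/

set_option autoImplicit false

namespace Pool.Agent.H9.CH

open Classical Pool.Agent.H8.VR Pool.Agent.H69.VR Pool.Agent.H46.CH

section
variable {N Q L T O C A : Type} [Fintype A]

/-- the finite set of the elements with the property `P` -/
noncomputable def fset (P : A → Prop) : Finset A := Finset.univ.filter P

theorem mem_fset (P : A → Prop) (a : A) : a ∈ fset P ↔ P a := by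
  unfold fset
  simp

theorem kc_cf [Fintype Q] [Fintype L] [Fintype T] [Fintype C] (K : Cp C) (lam : A → L)
    (th : A → A → T) (X Y : Set A) (col : A → Q) (κ : Q × L) :
    kc (cf K lam th X Y col) κ = (fset fun a => a ∈ X ∧ (col a, lam a) = κ).card := by
  have h := num_fib (fun a => a ∈ X) (fun a => (col a, stt K lam th Y a))
    (fun σ : Ix Q L T C => (σ.1, σ.2.1) = κ)
  exact h.symm

theorem cf_union (K : Cp C) (lam : A → L) (th : A → A → T) (X Y Z : Set A) (col : A → Q)
    (hd : Disjoint X Y) (σ : Ix Q L T C) :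
    cf K lam th (X ∪ Y) Z col σ = cf K lam th X Z col σ + cf K lam th Y Z col σ :=
  num_union X Y hd _

theorem cf_point (K : Cp C) (lam : A → L) (th : A → A → T) (a : A) (col : A → Q)
    (σ : Ix Q L T C) :
    cf K lam th {a} {a} col σ = ind (σ = (col a, (lam a, fun _ => K.cp 0))) := by
  have h1 : ∀ p, kn lam th {a} a p = 0 := by
    intro p
    by_contra h2
    obtain ⟨b, h3, h4, -⟩ := num_pos h2
    exact h4 h3
  have h0 : (col a, stt K lam th {a} a) = (col a, (lam a, fun _ => K.cp 0)) := by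
    unfold stt
    simp only [h1]
  refine (num_single a _).trans ?_
  rw [h0]
  exact ind_congr eq_comm

end

theorem good_cf (hDC : T_DC) (N Q L T O C : Type) [Fintype Q] [Fintype L] [Fintype T] [Fintype C]
    (W : Pm N Q L T O C) (A : Type) [Fintype A] (lam : A → L) (th : A → A → T) (col : A → Q)
    (hsym : Sym W.S th) (haf : ∀ a z, W.K.cp (kn lam th Set.univ a z) = W.af (col a) z)
    (s : N) (X : Set A) (F : Fk Q L O → ℕ) (hF : W.adm lam th col X F) :
    W.good (⟨s, F, cf W.K lam th X X col⟩ : Dt N Q L T O C) := by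
  intro κ φ h1 h2
  simp only at h1 h2
  rw [kc_cf] at h1
  obtain ⟨Y, hY1, hY2⟩ := hF φ
  obtain ⟨x, hx, y, hy, h3, h4⟩ := hDC N Q L T O C W A lam th col hsym haf κ φ.2.2
    (fset fun a => a ∈ X ∧ (col a, lam a) = κ) Y
    (fun x hx => ((mem_fset _ _).1 hx).2) (fun y hy => (hY2 y hy).2.1)
    (by
      rw [Finset.disjoint_left]
      intro a ha haY
      exact (hY2 a haY).1 ((mem_fset _ _).1 ha).1) h1 (h2.trans hY1)
  have hxX := (mem_fset _ _).1 hx
  obtain ⟨hy1, hy2, hy3⟩ := hY2 y hy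
  have hcx : col x = κ.1 := congrArg Prod.fst hxX.2
  have hcy : col y = φ.2.2.1 := congrArg Prod.fst hy2
  refine ⟨th x y, ?_, h3, h4⟩
  have h5 := hy3 x hxX.1
  have hne : x ≠ y := by
    rintro rfl
    exact hy1 hxX.1
  split_ifs at h5 ⊢ with h6
  · rw [← hcx, ← hcy]
    exact h5
  · rw [← hcx, ← hcy, ← hsym x y hne]
    exact h5

theorem pf_XT (hDC : T_DC) (hXJ : T_XJ) : Pool.Agent.H46.CH.T_XT := by
  intro N Q L T O C _ _ _ _ W A _ lam th col hsym haf s X c hG
  induction hG with
  | pt s a c h =>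
    intro hc F hF
    refine ⟨.leaf ⟨s, F, cf W.K lam th {a} {a} col⟩ (col a) (lam a), ?_, rfl⟩
    refine Pm.Ok.leaf _ _ _ ?_ ?_ ?_
    · rw [← hc a rfl]
      exact h
    · exact fun σ => cf_point W.K lam th a col σ
    · exact good_cf hDC N Q L T O C W A lam th col hsym haf s {a} F hF
  | op o X Y c c₁ c₂ h₁ h₂ hd hg ha hX hY ih₁ ih₂ =>
    intro hc F hF
    have hc₁ : ∀ a ∈ X, c₁ a = col a := by
      intro a haX
      rw [← hc a (Or.inl haX), hX a haX, W.fid]
    have hc₂ : ∀ b ∈ Y, c₂ b = col b := by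
      intro b hbY
      rw [← hc b (Or.inr hbY), hY b hbY, W.gid]
    have hal : ∀ x ∈ X, ∀ y ∈ Y, W.S.al o (col x) (col y) (th x y) := by
      intro x hx y hy
      rw [← hc₁ x hx, ← hc₂ y hy]
      exact ha x hx y hy
    obtain ⟨t₁, ht₁, hd₁⟩ := ih₁ hc₁ (fun φ => F φ +
      if φ.1 = o ∧ φ.2.1 = true then kc (cf W.K lam th Y Y col) φ.2.2 else 0) (by
        intro φ
        obtain ⟨Y₀, hY₀, hY₁⟩ := hF φ
        by_cases hφ : φ.1 = o ∧ φ.2.1 = true
        · refine ⟨Y₀ ∪ (fset fun a => a ∈ Y ∧ (col a, lam a) = φ.2.2), ?_, ?_⟩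
          · rw [Finset.card_union_of_disjoint]
            · simp only [if_pos hφ, kc_cf]
              omega
            · rw [Finset.disjoint_left]
              intro a h3 h4
              exact (hY₁ a h3).1 (Or.inr ((mem_fset _ _).1 h4).1)
          · intro y hy
            rcases Finset.mem_union.1 hy with hy | hy
            · obtain ⟨h3, h4, h5⟩ := hY₁ y hy
              exact ⟨fun h6 => h3 (Or.inl h6), h4, fun x hx => h5 x (Or.inl hx)⟩
            · obtain ⟨h3, h4⟩ := (mem_fset _ _).1 hy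
              refine ⟨fun h6 => Set.disjoint_left.1 hd h6 h3, h4, fun x hx => ?_⟩
              rw [if_pos hφ.2, hφ.1]
              exact hal x hx y h3
        · refine ⟨Y₀, ?_, ?_⟩
          · simp only [if_neg hφ]
            exact hY₀
          · intro y hy
            obtain ⟨h3, h4, h5⟩ := hY₁ y hy
            exact ⟨fun h6 => h3 (Or.inl h6), h4, fun x hx => h5 x (Or.inl hx)⟩)
    obtain ⟨t₂, ht₂, hd₂⟩ := ih₂ hc₂ (fun φ => F φ +
      if φ.1 = o ∧ φ.2.1 = false then kc (cf W.K lam th X X col) φ.2.2 else 0) (by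
        intro φ
        obtain ⟨Y₀, hY₀, hY₁⟩ := hF φ
        by_cases hφ : φ.1 = o ∧ φ.2.1 = false
        · refine ⟨Y₀ ∪ (fset fun a => a ∈ X ∧ (col a, lam a) = φ.2.2), ?_, ?_⟩
          · rw [Finset.card_union_of_disjoint]
            · simp only [if_pos hφ, kc_cf]
              omega
            · rw [Finset.disjoint_left]
              intro a h3 h4
              exact (hY₁ a h3).1 (Or.inl ((mem_fset _ _).1 h4).1)
          · intro y hy
            rcases Finset.mem_union.1 hy with hy | hy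
            · obtain ⟨h3, h4, h5⟩ := hY₁ y hy
              exact ⟨fun h6 => h3 (Or.inr h6), h4, fun x hx => h5 x (Or.inr hx)⟩
            · obtain ⟨h3, h4⟩ := (mem_fset _ _).1 hy
              refine ⟨fun h6 => Set.disjoint_left.1 hd h3 h6, h4, fun x hx => ?_⟩
              rw [if_neg (by rw [hφ.2]; simp), hφ.1]
              exact hal y h3 x hx
        · refine ⟨Y₀, ?_, ?_⟩
          · simp only [if_neg hφ]
            exact hY₀
          · intro y hy
            obtain ⟨h3, h4, h5⟩ := hY₁ y hy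
            exact ⟨fun h6 => h3 (Or.inr h6), h4, fun x hx => h5 x (Or.inr hx)⟩)
    obtain ⟨w, hw⟩ := hXJ N Q L T O C W A lam th col o X Y hsym hd hal
    refine ⟨.join ⟨W.S.u o, F, cf W.K lam th (X ∪ Y) (X ∪ Y) col⟩ o w t₁ t₂, ?_, rfl⟩
    refine Pm.Ok.join _ _ _ _ _ ht₁ ht₂ (by rw [hd₁]) (by rw [hd₂]) rfl ?_ ?_
      (cf W.K lam th X (X ∪ Y) col) (cf W.K lam th Y (X ∪ Y) col) (by rw [hd₁, hd₂]; exact hw)
      (fun σ => cf_union W.K lam th X Y (X ∪ Y) col hd σ)
      (good_cf hDC N Q L T O C W A lam th col hsym haf _ _ F hF)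
    · intro φ
      rw [hd₁, hd₂]
    · intro φ
      rw [hd₁, hd₂]

end Pool.Agent.H9.CH
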